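import Pool.Agent.W206.ND.Stm

/-!
# Exponential sums from normality
-/

set_option autoImplicit false

namespace Pool.Agent.W473.ND.WC

open Filter Topology Finset
open Pool.Agent.W206.ND

theorem ee_add (x y : ℝ) : ee (x + y) = ee x * ee y := by
  rw [ee, ee, ee, ← Complex.exp_add]
  congr 1
  push_cast
  ring

theorem ee_int (k : ℤ) : ee (k : ℝ) = 1 := by
  rw [ee, Complex.exp_eq_one_iff]
  exact ⟨k, by push_cast; ring⟩

theorem ee_sum {ι : Type*} (s : Finset ι) (f : ι → ℝ) : ee (∑ j ∈ s, f j) = ∏ j ∈ s, ee (f j) := by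
  classical
  induction s using Finset.induction_on with
  | empty =>
    have := ee_int 0
    simpa using this
  | insert a s ha ih => rw [sum_insert ha, prod_insert ha, ee_add, ih]

theorem ee_norm (x : ℝ) : ‖ee x‖ = 1 := by
  have h : ee x = Complex.exp (((2 * Real.pi * x : ℝ) : ℂ) * Complex.I) := by
    rw [ee]; congr 1; push_cast; ring
  rw [h, Complex.norm_exp_ofReal_mul_I]

theorem ee_sub (x y : ℝ) : ‖ee x - ee y‖ ≤ 2 * Real.pi * |x - y| := by
  have h1 : ee x = ee y * ee (x - y) := by rw [← ee_add]; congr 1; ring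
  have h2 : ee (x - y) = Complex.exp (Complex.I * ((2 * Real.pi * (x - y) : ℝ) : ℂ)) := by
    rw [ee]; congr 1; push_cast; ring
  have h3 : ee x - ee y = ee y * (ee (x - y) - 1) := by rw [h1]; ring
  rw [h3, norm_mul, ee_norm, one_mul, h2]
  refine Real.norm_exp_I_mul_ofReal_sub_one_le.trans ?_
  rw [Real.norm_eq_abs, abs_mul, abs_of_nonneg (by positivity : (0 : ℝ) ≤ 2 * Real.pi)]

/-- the full geometric sum of a nontrivial root of unity -/
theorem geo {M : ℕ} (hM : 0 < M) {h : ℤ} (h0 : h ≠ 0) (hlt : |h| < M) :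
    ∑ k : Fin M, ee (h * ((k : ℕ) : ℝ) / M) = 0 := by
  have hM0 : (M : ℝ) ≠ 0 := by exact_mod_cast hM.ne'
  have hMc : (M : ℂ) ≠ 0 := by exact_mod_cast hM.ne'
  set z : ℂ := ee (h / M) with hz
  have hpow : ∀ k : ℕ, ee (h * (k : ℝ) / M) = z ^ k := by
    intro k
    rw [hz, ee, ee, ← Complex.exp_nat_mul]
    congr 1
    push_cast
    ring
  have hz1 : z ≠ 1 := by
    intro hcon
    rw [hz, ee, Complex.exp_eq_one_iff] at hcon
    obtain ⟨n, hn⟩ := hcon
    have h2 : (2 * Real.pi * Complex.I : ℂ) ≠ 0 := Complex.two_pi_I_ne_zero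
    have h3 : ((h / M : ℝ) : ℂ) = n := by
      have : (2 * Real.pi * Complex.I : ℂ) * ((h / M : ℝ) : ℂ) = (2 * Real.pi * Complex.I) * n := by
        rw [hn]; ring
      exact mul_left_cancel₀ h2 this
    have h4 : (h / M : ℝ) = n := by exact_mod_cast h3
    have h5 : (h : ℝ) = n * M := by
      rw [← h4]; field_simp
    have h6 : h = n * M := by exact_mod_cast h5
    have h7 : (M : ℤ) ∣ h := ⟨n, by rw [h6]; ring⟩
    exact h0 (Int.eq_zero_of_abs_lt_dvd h7 hlt)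
  have hsum : ∑ k : Fin M, ee (h * ((k : ℕ) : ℝ) / M) = ∑ k ∈ range M, z ^ k := by
    rw [Finset.sum_range]
    exact Finset.sum_congr rfl fun k _ => hpow k
  rw [hsum, geom_sum_eq hz1]
  have hzM : z ^ M = 1 := by
    rw [← hpow M]
    have : (h * (M : ℝ) / M) = (h : ℝ) := by field_simp
    rw [this, ee_int]
  rw [hzM, sub_self, zero_div]

theorem fract_mul_lt {y : ℝ} {M : ℕ} (hM : 0 < M) : ⌊Int.fract y * M⌋₊ < M := by
  have hM0 : (0 : ℝ) < M := by exact_mod_cast hM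
  rw [Nat.floor_lt (mul_nonneg (Int.fract_nonneg _) hM0.le)]
  calc Int.fract y * M < 1 * M := by
        exact mul_lt_mul_of_pos_right (Int.fract_lt_one _) hM0
    _ = M := one_mul _

/-- the digits of the fractional part -/
theorem digit {b m t : ℕ} (hb : 2 ≤ b) (ht : t < m) (y : ℝ) :
    Int.floor (y * (b : ℝ) ^ (1 + t)) % (b : ℤ) =
      ((⌊Int.fract y * ((b ^ m : ℕ) : ℝ)⌋₊ / b ^ (m - 1 - t) % b : ℕ) : ℤ) := by
  have hb0 : (0 : ℝ) < b := by exact_mod_cast (by omega : 0 < b)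
  set z : ℝ := Int.fract y with hz
  have hz0 : 0 ≤ z := Int.fract_nonneg _
  have e1 : y * (b : ℝ) ^ (1 + t) = z * (b : ℝ) ^ (1 + t) +
      ((Int.floor y * (b : ℤ) ^ (1 + t) : ℤ) : ℝ) := by
    have : y = Int.floor y + z := (Int.floor_add_fract y).symm
    push_cast
    conv_lhs => rw [this]
    ring
  have e2 : z * (b : ℝ) ^ (1 + t) = z * ((b ^ m : ℕ) : ℝ) / ((b ^ (m - 1 - t) : ℕ) : ℝ) := by
    have hm : m = (1 + t) + (m - 1 - t) := by omega
    rw [eq_div_iff (by positivity)]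
    push_cast
    rw [mul_assoc, ← pow_add, ← hm]
  have e3 : ⌊z * (b : ℝ) ^ (1 + t)⌋ = ((⌊z * ((b ^ m : ℕ) : ℝ)⌋₊ / b ^ (m - 1 - t) : ℕ) : ℤ) := by
    rw [e2, ← Nat.floor_div_natCast, Int.natCast_floor_eq_floor (by positivity)]
  rw [e1, Int.floor_add_intCast, e3]
  have h4 : (b : ℤ) ∣ Int.floor y * (b : ℤ) ^ (1 + t) :=
    Dvd.dvd.mul_left (dvd_pow_self _ (by omega)) _
  rw [Int.add_emod, Int.emod_eq_zero_of_dvd h4, add_zero, Int.emod_emod]
  push_cast
  rfl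

/-- the cell containing the point -/
noncomputable def kap (b m : ℕ) (hb : 0 < b) {n : ℕ} (ξ : Fin n → ℝ) (i : ℕ) : Fin n → Fin (b ^ m) :=
  fun j => ⟨⌊Int.fract (ξ j * (b : ℝ) ^ i) * ((b ^ m : ℕ) : ℝ)⌋₊, fract_mul_lt (Nat.pow_pos hb)⟩

theorem symm_val {b m : ℕ} (k : Fin (b ^ m)) (t : Fin m) :
    ((finFunctionFinEquiv.symm k t : Fin b) : ℕ) = (k : ℕ) / b ^ (t : ℕ) % b := rfl

theorem kap_iff {b m : ℕ} (hb : 2 ≤ b) {n : ℕ} (ξ : Fin n → ℝ) (i : ℕ) (K : Fin n → Fin (b ^ m)) :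
    kap b m (by omega) ξ i = K ↔ ∀ j : Fin n, ∀ t : Fin m,
      Int.floor (ξ j * (b : ℝ) ^ (i + 1 + (t : ℕ))) % (b : ℤ) =
        (((finFunctionFinEquiv.symm (K j) (Fin.rev t) : Fin b) : ℕ) : ℤ) := by
  have key : ∀ j : Fin n, ∀ t : Fin m,
      Int.floor (ξ j * (b : ℝ) ^ (i + 1 + (t : ℕ))) % (b : ℤ) =
        (((finFunctionFinEquiv.symm (kap b m (by omega) ξ i j) (Fin.rev t) : Fin b) : ℕ) : ℤ) := by
    intro j t
    rw [symm_val]
    have h1 := digit (m := m) hb t.2 (ξ j * (b : ℝ) ^ i)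
    have h2 : ξ j * (b : ℝ) ^ (i + 1 + (t : ℕ)) = ξ j * (b : ℝ) ^ i * (b : ℝ) ^ (1 + (t : ℕ)) := by
      rw [mul_assoc, ← pow_add, add_assoc]
    have h3 : ((Fin.rev t : Fin m) : ℕ) = m - 1 - t := by
      rw [Fin.val_rev]; omega
    rw [h2, h1, h3]
    rfl
  constructor
  · rintro rfl
    exact key
  · intro h
    funext j
    apply finFunctionFinEquiv.symm.injective
    funext t
    have h1 := key j (Fin.rev t)
    have h2 := h j (Fin.rev t)
    rw [Fin.rev_rev] at h1 h2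
    rw [h1] at h2
    exact Fin.ext (by exact_mod_cast h2)

theorem main : S_DG → S_DM → S_WC := by
  intro _ _ b n ξ hb hNT h hh
  classical
  obtain ⟨j₀, hj₀⟩ : ∃ j, h j ≠ 0 := by
    by_contra hcon
    push Not at hcon
    exact hh (funext hcon)
  have hb0 : (0 : ℝ) < b := by exact_mod_cast (by omega : 0 < b)
  have hb1 : (1 : ℝ) < b := by exact_mod_cast (by omega : 1 < b)
  set H : ℝ := ∑ j, |(h j : ℝ)| with hH
  have hH0 : 0 ≤ H := sum_nonneg fun j _ => abs_nonneg _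
  rw [AV, Metric.tendsto_atTop]
  intro ε hε
  -- the choice of `m`
  obtain ⟨m, hm1, hm2, hm3⟩ : ∃ m : ℕ, 1 ≤ m ∧ |h j₀| < ((b ^ m : ℕ) : ℤ) ∧
      2 * Real.pi * (H / ((b ^ m : ℕ) : ℝ)) < ε / 2 := by
    have ht : Tendsto (fun m : ℕ => ((b ^ m : ℕ) : ℝ)) atTop atTop := by
      have := tendsto_pow_atTop_atTop_of_one_lt hb1
      refine this.congr fun m => ?_
      push_cast; rfl
    have h1 := ht.eventually_gt_atTop (|(h j₀ : ℝ)|)
    have h2 : Tendsto (fun m : ℕ => 2 * Real.pi * (H / ((b ^ m : ℕ) : ℝ))) atTop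
        (𝓝 (2 * Real.pi * 0)) := (Tendsto.div_atTop tendsto_const_nhds ht).const_mul _
    rw [mul_zero] at h2
    have h3 := h2.eventually_lt_const (by linarith : (0 : ℝ) < ε / 2)
    obtain ⟨m, hm⟩ := ((h1.and h3).and (eventually_ge_atTop 1)).exists
    exact ⟨m, hm.2, by exact_mod_cast hm.1.1, hm.1.2⟩
  set M : ℕ := b ^ m with hMdef
  have hM0 : 0 < M := Nat.pow_pos (by omega)
  have hMr : (0 : ℝ) < M := by exact_mod_cast hM0
  set κ : ℕ → Fin n → Fin M := fun i => kap b m (by omega) ξ i with hκ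
  set F : (Fin n → Fin M) → ℂ := fun K => ee (∑ j, (h j : ℝ) * ((K j : ℕ) : ℝ) / M) with hF
  have hFsum : ∑ K : Fin n → Fin M, F K = 0 := by
    have h1 : ∀ K : Fin n → Fin M, F K = ∏ j, ee ((h j : ℝ) * ((K j : ℕ) : ℝ) / M) := by
      intro K
      simp only [hF]
      rw [ee_sum]
    rw [Finset.sum_congr rfl fun K _ => h1 K]
    have h2 : ∑ K : Fin n → Fin M, ∏ j, ee ((h j : ℝ) * ((K j : ℕ) : ℝ) / M) =
        ∏ j, ∑ k : Fin M, ee ((h j : ℝ) * ((k : ℕ) : ℝ) / M) := by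
      rw [Finset.prod_univ_sum]
      simp only [Fintype.piFinset_univ]
    rw [h2]
    exact Finset.prod_eq_zero (mem_univ j₀) (geo hM0 hj₀ hm2)
  -- the approximation
  have hterm : ∀ i : ℕ, ‖ee (((1 : ℤ) : ℝ) * (∑ j, (h j : ℝ) * ξ j) * (b : ℝ) ^ i) - F (κ i)‖ ≤
      2 * Real.pi * (H / M) := by
    intro i
    have h1 : ee (((1 : ℤ) : ℝ) * (∑ j, (h j : ℝ) * ξ j) * (b : ℝ) ^ i) =
        ee (∑ j, (h j : ℝ) * Int.fract (ξ j * (b : ℝ) ^ i)) := by
      have h2 : ((1 : ℤ) : ℝ) * (∑ j, (h j : ℝ) * ξ j) * (b : ℝ) ^ i =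
          ∑ j, (h j : ℝ) * Int.fract (ξ j * (b : ℝ) ^ i) +
            ((∑ j, h j * Int.floor (ξ j * (b : ℝ) ^ i) : ℤ) : ℝ) := by
        push_cast
        rw [one_mul, Finset.sum_mul, ← Finset.sum_add_distrib]
        refine Finset.sum_congr rfl fun j _ => ?_
        rw [← mul_add, Int.fract_add_floor]
        ring
      rw [h2, ee_add, ee_int, mul_one]
    rw [h1]
    refine (ee_sub _ _).trans ?_
    refine mul_le_mul_of_nonneg_left ?_ (by positivity)
    rw [← Finset.sum_sub_distrib]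
    refine (Finset.abs_sum_le_sum_abs _ _).trans ?_
    rw [hH, Finset.sum_div]
    refine Finset.sum_le_sum fun j _ => ?_
    set y : ℝ := Int.fract (ξ j * (b : ℝ) ^ i) with hy
    have hy0 : 0 ≤ y := Int.fract_nonneg _
    have hk : ((κ i j : ℕ) : ℝ) = (⌊y * (M : ℝ)⌋₊ : ℝ) := rfl
    have e1 : (h j : ℝ) * y - (h j : ℝ) * ((κ i j : ℕ) : ℝ) / M =
        (h j : ℝ) * ((y * M - ⌊y * (M : ℝ)⌋₊) / M) := by
      rw [hk]; field_simp
    rw [e1, abs_mul]
    have h3 : |(y * M - (⌊y * (M : ℝ)⌋₊ : ℝ)) / M| ≤ 1 / M := by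
      rw [abs_div, abs_of_pos hMr]
      refine div_le_div_of_nonneg_right ?_ hMr.le
      have h4 := Nat.floor_le (mul_nonneg hy0 hMr.le)
      have h5 := Nat.lt_floor_add_one (y * (M : ℝ))
      rw [abs_le]
      constructor <;> linarith
    calc |(h j : ℝ)| * |(y * M - (⌊y * (M : ℝ)⌋₊ : ℝ)) / M| ≤ |(h j : ℝ)| * (1 / M) :=
          mul_le_mul_of_nonneg_left h3 (abs_nonneg _)
      _ = |(h j : ℝ)| / M := by ring
  -- the frequencies
  have hfreq : ∀ K : Fin n → Fin M, Tendsto (fun N : ℕ =>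
      ((((range N).filter (fun i => κ i = K)).card : ℝ) / N)) atTop
      (𝓝 (1 / (b : ℝ) ^ (m * n))) := by
    intro K
    have h1 := hNT m hm1 (fun j t => finFunctionFinEquiv.symm (K j) (Fin.rev t))
    refine h1.congr fun N => ?_
    congr 2
    symm
    refine Finset.card_nbij' (fun i => i + 1) (fun i => i - 1) ?_ ?_ ?_ ?_
    · intro i hi
      simp only [coe_filter, mem_range, Set.mem_setOf_eq] at hi
      simp only [coe_filter, mem_Icc, Set.mem_setOf_eq]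
      exact ⟨⟨by omega, by omega⟩, (kap_iff hb ξ i K).1 hi.2⟩
    · intro i hi
      simp only [coe_filter, mem_Icc, Set.mem_setOf_eq] at hi
      simp only [coe_filter, mem_range, Set.mem_setOf_eq]
      refine ⟨by omega, (kap_iff hb ξ (i - 1) K).2 ?_⟩
      have h2 : i - 1 + 1 = i := by omega
      rw [h2]
      exact hi.2
    · intro i _
      simp
    · intro i hi
      simp only [coe_filter, mem_Icc, Set.mem_setOf_eq] at hi
      show i - 1 + 1 = i
      omega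
  have hB : Tendsto (fun N : ℕ => (∑ i ∈ range N, F (κ i)) / (N : ℂ)) atTop (𝓝 0) := by
    have h1 : ∀ N : ℕ, (∑ i ∈ range N, F (κ i)) / (N : ℂ) = ∑ K : Fin n → Fin M,
        (((((range N).filter (fun i => κ i = K)).card : ℝ) / N : ℝ) : ℂ) * F K := by
      intro N
      rw [← Finset.sum_fiberwise (range N) κ (fun i => F (κ i)), Finset.sum_div]
      refine Finset.sum_congr rfl fun K _ => ?_
      have h2 : ∑ i ∈ (range N).filter (fun i => κ i = K), F (κ i) =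
          ∑ i ∈ (range N).filter (fun i => κ i = K), F K :=
        Finset.sum_congr rfl fun i hi => by rw [(mem_filter.1 hi).2]
      rw [h2, Finset.sum_const, nsmul_eq_mul]
      push_cast
      ring
    have h3 : Tendsto (fun N : ℕ => ∑ K : Fin n → Fin M,
        (((((range N).filter (fun i => κ i = K)).card : ℝ) / N : ℝ) : ℂ) * F K) atTop
        (𝓝 (∑ K : Fin n → Fin M, ((1 / (b : ℝ) ^ (m * n) : ℝ) : ℂ) * F K)) := by
      refine tendsto_finset_sum _ fun K _ => ?_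
      exact ((Complex.continuous_ofReal.tendsto _).comp (hfreq K)).mul_const _
    rw [← Finset.mul_sum, hFsum, mul_zero] at h3
    exact h3.congr fun N => (h1 N).symm
  obtain ⟨N₀, hN₀⟩ := (Metric.tendsto_atTop.1 hB) (ε / 2) (by linarith)
  refine ⟨N₀ + 1, fun N hN => ?_⟩
  have h1 := hN₀ N (by omega)
  rw [dist_zero_right] at h1 ⊢
  have hNpos : (0 : ℝ) < N := by exact_mod_cast (by omega : 0 < N)
  have h2 : ‖(∑ i ∈ range N, ee (((1 : ℤ) : ℝ) * (∑ j, (h j : ℝ) * ξ j) * (b : ℝ) ^ i)) / (N : ℂ) -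
      (∑ i ∈ range N, F (κ i)) / (N : ℂ)‖ ≤ 2 * Real.pi * (H / M) := by
    rw [← sub_div, ← Finset.sum_sub_distrib, norm_div, Complex.norm_natCast, div_le_iff₀ hNpos]
    refine (norm_sum_le _ _).trans ?_
    refine (Finset.sum_le_sum fun i _ => hterm i).trans ?_
    rw [Finset.sum_const, card_range, nsmul_eq_mul, mul_comm]
  calc ‖(∑ i ∈ range N, ee (((1 : ℤ) : ℝ) * (∑ j, (h j : ℝ) * ξ j) * (b : ℝ) ^ i)) / (N : ℂ)‖
      = ‖((∑ i ∈ range N, ee (((1 : ℤ) : ℝ) * (∑ j, (h j : ℝ) * ξ j) * (b : ℝ) ^ i)) / (N : ℂ) -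
        (∑ i ∈ range N, F (κ i)) / (N : ℂ)) + (∑ i ∈ range N, F (κ i)) / (N : ℂ)‖ := by
        congr 1; ring
    _ ≤ _ := norm_add_le _ _
    _ < ε / 2 + ε / 2 := add_lt_add (h2.trans_lt hm3) h1
    _ = ε := by ring

end Pool.Agent.W473.ND.WC
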